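import Pool.Agent.Lib_helper15.C10.Defs2
import Pool.Agent.Lib_helper93.C10.Ctl

/-!
# Module Ctl2: the control functional

`L = ∑ 2^{-i} L_i / (1 + L_i 1)`, where `L_i` is the total variation functional of `f ↦ Φ f w_i`
and `(w_i)` is dense.
-/

set_option autoImplicit false

universe u

namespace Pool.Agent.C10

namespace Ctl

open Filter Set
open scoped Topology

lemma norm_reC_mul_le (n : ℕ) (g : C(Circle, ℂ)) : ‖reC (zc ^ n * g)‖ ≤ ‖g‖ := by
  rw [ContinuousMap.norm_le _ (norm_nonneg _)]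
  intro z
  change |((z : ℂ) ^ n * g z).re| ≤ ‖g‖
  refine (Complex.abs_re_le_norm _).trans ?_
  rw [norm_mul, norm_pow, Circle.norm_coe, one_pow, one_mul]
  exact g.norm_coe_le_norm z

end Ctl

open Filter Set
open scoped Topology

open Ctl

theorem modCtl2 (hTV : ModTV2) : ModCtl2.{u} := by
  intro E _ _ _ Φ hΦ
  -- dense sequence
  have hne : Nonempty E := ⟨0⟩
  set w : ℕ → E := TopologicalSpace.denseSeq E with hw
  have hdense : DenseRange w := TopologicalSpace.denseRange_denseSeq E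
  -- the functionals
  have hν : ∀ i : ℕ, ∃ L : C(Circle, ℝ) →ₗ[ℝ] ℝ, PosR2 L ∧ ∀ f, ‖Φ f (w i)‖ ≤ L (absC f) := by
    intro i
    refine hTV ((ContinuousLinearMap.apply ℂ ℂ (w i)).comp Φ) fun f => ?_
    have h1 := ((ContinuousLinearMap.apply ℂ ℂ (w i)).continuous.tendsto
      (0 : E →L[ℂ] ℂ)).comp (hΦ f)
    rw [map_zero] at h1
    exact h1
  choose Li hLi hLi2 using hν
  have hpos : ∀ i f, 0 ≤ f → 0 ≤ Li i f := fun i => (hLi i).1
  have h1pos : ∀ i, 0 ≤ Li i 1 := fun i => hpos i 1 one_nonneg_C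
  set c : ℕ → ℝ := fun i => (1 / 2) ^ i / (1 + Li i 1) with hc
  have hcpos : ∀ i, 0 < c i := fun i => by
    have := h1pos i
    rw [hc]
    positivity
  have hbound : ∀ i f, |c i * Li i f| ≤ (1 / 2) ^ i * ‖f‖ := by
    intro i f
    rw [abs_mul, abs_of_pos (hcpos i), hc]
    simp only
    rw [div_mul_eq_mul_div, div_le_iff₀ (by linarith [h1pos i]), mul_assoc]
    refine mul_le_mul_of_nonneg_left ?_ (by positivity)
    refine (abs_le_of_pos (Li i) (hpos i) f).trans ?_
    nlinarith [norm_nonneg f, h1pos i]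
  have hgeo : ∀ r : ℝ, Summable fun i : ℕ => (1 / 2 : ℝ) ^ i * r := fun r =>
    (summable_geometric_of_lt_one (by norm_num) (by norm_num)).mul_right r
  have hsum : ∀ f, Summable fun i => c i * Li i f := fun f =>
    Summable.of_norm_bounded (hgeo ‖f‖) (fun i => hbound i f)
  let L : C(Circle, ℝ) →ₗ[ℝ] ℝ :=
    { toFun := fun f => ∑' i, c i * Li i f
      map_add' := fun f g => by
        rw [← (hsum f).tsum_add (hsum g)]
        refine tsum_congr fun i => ?_
        rw [map_add]; ring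
      map_smul' := fun r f => by
        rw [RingHom.id_apply, smul_eq_mul, ← tsum_mul_left]
        refine tsum_congr fun i => ?_
        rw [map_smul, smul_eq_mul]; ring }
  have hLdef : ∀ f, L f = ∑' i, c i * Li i f := fun f => rfl
  have hLpos : ∀ f, 0 ≤ f → 0 ≤ L f := fun f hf => by
    rw [hLdef]
    exact tsum_nonneg fun i => mul_nonneg (hcpos i).le (hpos i f hf)
  refine ⟨L, ⟨hLpos, fun g => ?_⟩, fun v ε hε => ?_⟩
  · have h1 : Tendsto (fun n : ℕ => ∑' i, c i * Li i (reC (zc ^ n * g))) atTop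
        (𝓝 (∑' _ : ℕ, (0 : ℝ))) := by
      refine tendsto_tsum_of_dominated_convergence (hgeo ‖g‖) (fun i => ?_) ?_
      · have := ((hLi i).2 g).const_mul (c i)
        simpa using this
      · refine Filter.Eventually.of_forall fun n i => ?_
        refine (hbound i _).trans ?_
        exact mul_le_mul_of_nonneg_left (norm_reC_mul_le n g) (by positivity)
    rw [tsum_zero] at h1
    exact h1
  · -- choice of `i`
    have hη : 0 < ε / (4 * (‖Φ‖ + 1)) := by positivity
    obtain ⟨i, hi⟩ := hdense.exists_dist_lt v hη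
    refine ⟨c i * (ε / 2), mul_pos (hcpos i) (by positivity), fun f hf hLf => ?_⟩
    have h1 : c i * Li i (absC f) ≤ L (absC f) := by
      rw [hLdef]
      exact (hsum (absC f)).le_tsum i fun j _ =>
        mul_nonneg (hcpos j).le (hpos j _ (absC_nonneg f))
    have h2 : Li i (absC f) ≤ ε / 2 := by
      have := h1.trans hLf
      exact le_of_mul_le_mul_left this (hcpos i)
    have h3 : ‖Φ f (v - w i)‖ ≤ ε / 2 := by
      refine ((Φ f).le_opNorm _).trans ?_
      have h4 : ‖Φ f‖ ≤ ‖Φ‖ * 2 := (Φ.le_opNorm f).trans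
        (mul_le_mul_of_nonneg_left hf (norm_nonneg _))
      have h5 : ‖v - w i‖ ≤ ε / (4 * (‖Φ‖ + 1)) := by
        rw [← dist_eq_norm]; exact hi.le
      calc ‖Φ f‖ * ‖v - w i‖ ≤ (‖Φ‖ * 2) * (ε / (4 * (‖Φ‖ + 1))) :=
            mul_le_mul h4 h5 (norm_nonneg _) (by positivity)
        _ ≤ ((‖Φ‖ + 1) * 2) * (ε / (4 * (‖Φ‖ + 1))) := by
            refine mul_le_mul_of_nonneg_right ?_ hη.le
            linarith
        _ = ε / 2 := by
            have : (‖Φ‖ + 1) ≠ 0 := by positivity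
            field_simp
            ring
    calc ‖Φ f v‖ = ‖Φ f (v - w i) + Φ f (w i)‖ := by rw [← map_add, sub_add_cancel]
      _ ≤ ‖Φ f (v - w i)‖ + ‖Φ f (w i)‖ := norm_add_le _ _
      _ ≤ ε / 2 + ε / 2 := add_le_add h3 ((hLi2 i f).trans h2)
      _ = ε := by ring

end Pool.Agent.C10
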